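import Pool.Agent.Y859.OE.Stm

set_option autoImplicit false

namespace Pool.Agent.Y859.OE

open Finset Filter

/-- the number of primes `≤ s` -/
noncomputable def pc (s : ℕ) : ℕ := ((Icc 1 s).filter Nat.Prime).card

theorem pc_eq (s : ℕ) : pc s = Nat.primeCounting s := by
  unfold pc
  rw [Nat.primeCounting, Nat.primeCounting', Nat.count_eq_card_filter_range]
  congr 1
  ext q
  simp only [mem_filter, mem_Icc, mem_range]
  constructor
  · rintro ⟨⟨a1, a2⟩, a3⟩; exact ⟨by omega, a3⟩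
  · rintro ⟨a1, a2⟩; exact ⟨⟨a2.one_le, by omega⟩, a2⟩

theorem pc_bound : ∀ᶠ s : ℕ in atTop, (pc s : ℝ) ≤ 3 / 2 * s / Real.log s := by
  have h1 := Chebyshev.eventually_primeCounting_le (ε := 1 / 10) (by norm_num)
  have h2 := tendsto_natCast_atTop_atTop (R := ℝ) |>.eventually h1
  have h3 := tendsto_natCast_atTop_atTop (R := ℝ) |>.eventually
    (Real.tendsto_log_atTop.eventually_ge_atTop 1)
  filter_upwards [h2, h3] with s h4 h5
  rw [Nat.floor_natCast] at h4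
  rw [pc_eq]
  refine h4.trans ?_
  apply div_le_div_of_nonneg_right _ (by linarith)
  have h6 : Real.log 4 ≤ 14 / 10 := by
    have : Real.log 4 = 2 * Real.log 2 := by
      rw [show (4 : ℝ) = 2 ^ 2 by norm_num, Real.log_pow]; norm_num
    rw [this]
    have := Real.log_two_lt_d9
    linarith
  have h7 : (0 : ℝ) ≤ s := Nat.cast_nonneg s
  nlinarith

theorem uniq {A s p i j : ℕ} (hp : s < p) (hi : i ∈ Ioc A (A + s)) (hj : j ∈ Ioc A (A + s))
    (h1 : p ∣ i) (h2 : p ∣ j) : i = j := by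
  rw [mem_Ioc] at hi hj
  rcases le_total i j with h | h
  · have h3 := Nat.eq_zero_of_dvd_of_lt (Nat.dvd_sub h2 h1) (by omega)
    omega
  · have h3 := Nat.eq_zero_of_dvd_of_lt (Nat.dvd_sub h1 h2) (by omega)
    omega

/-- exactly once -/
def Once (A s p : ℕ) : Prop := p.Prime ∧ p ∣ ∏ j ∈ Ioc A (A + s), j ∧
  ¬ p ^ 2 ∣ ∏ j ∈ Ioc A (A + s), j

theorem once_of {A s p j : ℕ} (hp : p.Prime) (hj : j ∈ Ioc A (A + s)) (h1 : p ∣ j)
    (h2 : ¬ p ^ 2 ∣ j) (h : ∀ i ∈ Ioc A (A + s), p ∣ i → i = j) : Once A s p := by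
  refine ⟨hp, h1.trans (dvd_prod_of_mem _ hj), fun hd => h2 ?_⟩
  rw [← mul_prod_erase _ _ hj] at hd
  refine Nat.Coprime.dvd_of_dvd_mul_right ?_ hd
  apply Nat.Coprime.pow_left
  rw [Nat.Prime.coprime_iff_not_dvd hp, Prime.dvd_finsetProd_iff hp.prime]
  rintro ⟨i, hi, hpi⟩
  rw [mem_erase] at hi
  exact hi.1 (h i hi.2 hpi)

theorem good_T (A s : ℕ) (G : Finset ℕ) (hG : G ⊆ Ioc A (A + s)) (h : ∀ j ∈ G, Good s j) :
    ∃ T : Finset ℕ, (∀ p ∈ T, Once A s p) ∧ T.card = G.card := by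
  classical
  unfold Good at h
  choose! f hf using h
  refine ⟨G.image f, ?_, ?_⟩
  · intro p hp
    rw [mem_image] at hp
    obtain ⟨j, hj, rfl⟩ := hp
    obtain ⟨h1, h2, h3, h4⟩ := hf j hj
    exact once_of h1 (hG hj) h3 h4 fun i hi hpi => uniq h2 hi (hG hj) hpi h3
  · apply card_image_of_injOn
    intro i hi j hj hij
    have hij : f i = f j := hij
    obtain ⟨h1, h2, h3, h4⟩ := hf i hi
    obtain ⟨k1, k2, k3, k4⟩ := hf j hj
    rw [← hij] at k3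
    exact uniq h2 (hG hi) (hG hj) h3 k3

theorem smp_pos (s j : ℕ) : 1 ≤ smp s j := by
  unfold smp
  rw [Nat.one_le_iff_ne_zero, ← Nat.pos_iff_ne_zero]
  apply Finset.prod_pos
  intro p hp
  exact pow_pos (mem_filter.1 hp).2.pos _

theorem sum_log (hSM : S_SM) (A s : ℕ) (hs : 1 ≤ s) :
    ∑ j ∈ Ioc A (A + s), Real.log (smp s j) ≤
      s * Real.log s + pc s * Real.log ((A + s : ℕ) : ℝ) := by
  have h1 := hSM A s hs
  have h2 : ((∏ j ∈ Ioc A (A + s), smp s j : ℕ) : ℝ) ≤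
      (s ^ s : ℕ) * ((A + s : ℕ) : ℝ) ^ pc s := by
    have h3 : ∏ j ∈ Ioc A (A + s), smp s j ≤ s ^ s * (A + s) ^ pc s :=
      h1.trans (Nat.mul_le_mul_right _ (Nat.factorial_le_pow s))
    exact_mod_cast h3
  rw [← Real.log_prod (fun j _ => Nat.cast_ne_zero.2 (Nat.one_le_iff_ne_zero.1 (smp_pos s j)))]
  rw [Nat.cast_prod] at h2
  have h4 : (0 : ℝ) < ∏ j ∈ Ioc A (A + s), (smp s j : ℝ) :=
    Finset.prod_pos fun j _ => by exact_mod_cast smp_pos s j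
  refine (Real.log_le_log h4 h2).trans ?_
  have hs0 : (0 : ℝ) < s := by exact_mod_cast hs
  have h5 : (0 : ℝ) < ((A + s : ℕ) : ℝ) := by exact_mod_cast (by omega : 0 < A + s)
  rw [Nat.cast_pow, Real.log_mul (by positivity) (by positivity), Real.log_pow, Real.log_pow]

theorem markov (A s : ℕ) (F : Finset ℕ) (hF : F ⊆ Ioc A (A + s)) (t : ℝ)
    (h : ∀ j ∈ F, t ≤ Real.log (smp s j)) :
    F.card * t ≤ ∑ j ∈ Ioc A (A + s), Real.log (smp s j) := by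
  have h1 : F.card * t ≤ ∑ j ∈ F, Real.log (smp s j) := by
    rw [← nsmul_eq_mul]
    exact Finset.card_nsmul_le_sum _ _ _ h
  refine h1.trans (Finset.sum_le_sum_of_subset_of_nonneg hF fun j _ _ => ?_)
  exact Real.log_nonneg (by exact_mod_cast smp_pos s j)

/-- a set of elements of the block with `j = u j * x j ^ 2`, `x j > s`, is not larger than the range
of `u` -/
theorem inj_sq {A s u x y : ℕ} (hx : s < x) (hu : 1 ≤ u)
    (h1 : u * x ^ 2 ∈ Ioc A (A + s)) (h2 : u * y ^ 2 ∈ Ioc A (A + s)) (hxy : x < y) : False := by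
  rw [mem_Ioc] at h1 h2
  have h3 : (x + 1) ^ 2 ≤ y ^ 2 := Nat.pow_le_pow_left hxy 2
  have h4 : u * (x + 1) ^ 2 ≤ u * y ^ 2 := Nat.mul_le_mul_left _ h3
  have h5 : u * (x + 1) ^ 2 = u * x ^ 2 + u * (2 * x + 1) := by ring
  have h6 : 1 * (2 * x + 1) ≤ u * (2 * x + 1) := Nat.mul_le_mul_right _ hu
  omega

theorem inj_cu {A s u x y : ℕ} (hx : s < x) (hu : 1 ≤ u)
    (h1 : u * x ^ 3 ∈ Ioc A (A + s)) (h2 : u * y ^ 3 ∈ Ioc A (A + s)) (hxy : x < y) : False := by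
  rw [mem_Ioc] at h1 h2
  have h3 : (x + 1) ^ 3 ≤ y ^ 3 := Nat.pow_le_pow_left hxy 3
  have h4 : u * (x + 1) ^ 3 ≤ u * y ^ 3 := Nat.mul_le_mul_left _ h3
  have h5 : u * (x + 1) ^ 3 = u * x ^ 3 + u * (3 * x ^ 2 + 3 * x + 1) := by ring
  have h6 : 1 * (3 * x ^ 2 + 3 * x + 1) ≤ u * (3 * x ^ 2 + 3 * x + 1) := Nat.mul_le_mul_right _ hu
  have h7 : 0 ≤ 3 * x ^ 2 := Nat.zero_le _
  omega

end Pool.Agent.Y859.OE
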