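import Pool.Agent.Y859.OE.Cases

set_option autoImplicit false

namespace Pool.Agent.Y859.OE

open Finset Filter

/-- the coefficients of the squares -/
theorem count_W (hTHR : S_THR) (hCNT : S_CNT) (A s M : ℕ) (R : ℝ) (hs : 1 ≤ s) (hM : 1 ≤ M)
    (hA : 16 * s * M ^ 2 ≤ A) (hR : 0 < R) (hRA : (M : ℝ) * A ≤ R ^ 6) (W : Finset ℕ)
    (hW : ∀ a ∈ W, 1 ≤ a ∧ a ≤ M ∧ ∃ x : ℕ, A < a * x ^ 2 ∧ a * x ^ 2 ≤ A + s) :
    (W.card : ℝ) ≤ (Nat.log 2 M + 1 : ℕ) * (2 * (R + 1)) := by
  classical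
  have hsub : W ⊆ (range (Nat.log 2 M + 1)).biUnion
      (fun i => W.filter (fun a => 2 ^ i ≤ a ∧ a < 2 ^ (i + 1))) := by
    intro a ha
    obtain ⟨h1, h2, -⟩ := hW a ha
    rw [mem_biUnion]
    refine ⟨Nat.log 2 a, ?_, mem_filter.2 ⟨ha, Nat.pow_log_le_self 2 (by omega),
      Nat.lt_pow_succ_log_self (by norm_num) a⟩⟩
    rw [mem_range]
    have := Nat.log_mono_right (b := 2) h2
    omega
  have h1 : W.card ≤ ∑ i ∈ range (Nat.log 2 M + 1),
      (W.filter (fun a => 2 ^ i ≤ a ∧ a < 2 ^ (i + 1))).card :=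
    (card_le_card hsub).trans card_biUnion_le
  have h2 : (W.card : ℝ) ≤ ∑ i ∈ range (Nat.log 2 M + 1),
      ((W.filter (fun a => 2 ^ i ≤ a ∧ a < 2 ^ (i + 1))).card : ℝ) := by exact_mod_cast h1
  refine h2.trans ?_
  have h3 : ∀ i ∈ range (Nat.log 2 M + 1),
      ((W.filter (fun a => 2 ^ i ≤ a ∧ a < 2 ^ (i + 1))).card : ℝ) ≤ 2 * (R + 1) := by
    intro i hi
    rw [mem_range] at hi
    have hD1 : 1 ≤ 2 ^ i := Nat.one_le_two_pow
    have hDM : 2 ^ i ≤ M := by
      have h4 : 2 ^ i ≤ 2 ^ Nat.log 2 M := Nat.pow_le_pow_right (by norm_num) (by omega)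
      exact h4.trans (Nat.pow_log_le_self 2 (by omega))
    have hD0 : (0 : ℝ) < ((2 ^ i : ℕ) : ℝ) := by exact_mod_cast hD1
    have h5 := hCNT (W.filter (fun a => 2 ^ i ≤ a ∧ a < 2 ^ (i + 1))) (2 ^ i)
      (((2 ^ i : ℕ) : ℝ) / R) hD1 (by positivity) (fun a ha => by
        rw [mem_filter] at ha
        have : 2 ^ (i + 1) = 2 * 2 ^ i := by ring
        omega) (fun a ha b hb c hc hab hbc => by
        rw [mem_filter] at ha hb hc
        obtain ⟨-, -, x, hx1, hx2⟩ := hW a ha.1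
        obtain ⟨-, -, y, hy1, hy2⟩ := hW b hb.1
        obtain ⟨-, -, z, hz1, hz2⟩ := hW c hc.1
        have hpow : 2 ^ (i + 1) = 2 * 2 ^ i := by ring
        have h6 : 16 * s * (2 ^ i) ^ 2 ≤ A :=
          le_trans (Nat.mul_le_mul_left _ (Nat.pow_le_pow_left hDM 2)) hA
        have h7 := hTHR A s (2 ^ i) a b c x y z hs hD1 ha.2.1 hab hbc (by omega) h6 hx1 hx2 hy1 hy2
          hz1 hz2
        have h8 : (((2 ^ i : ℕ) : ℝ)) ^ 5 ≤ A * ((c - a : ℕ) : ℝ) ^ 6 := by exact_mod_cast h7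
        have h9 : (((2 ^ i : ℕ) : ℝ)) ^ 6 ≤ (R * ((c - a : ℕ) : ℝ)) ^ 6 := by
          have h10 : ((2 ^ i : ℕ) : ℝ) * A ≤ R ^ 6 := by
            refine le_trans ?_ hRA
            exact mul_le_mul_of_nonneg_right (by exact_mod_cast hDM) (Nat.cast_nonneg _)
          calc (((2 ^ i : ℕ) : ℝ)) ^ 6 = ((2 ^ i : ℕ) : ℝ) * (((2 ^ i : ℕ) : ℝ)) ^ 5 := by ring
            _ ≤ ((2 ^ i : ℕ) : ℝ) * (A * ((c - a : ℕ) : ℝ) ^ 6) :=
                mul_le_mul_of_nonneg_left h8 hD0.le
            _ = ((2 ^ i : ℕ) : ℝ) * A * ((c - a : ℕ) : ℝ) ^ 6 := by ring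
            _ ≤ R ^ 6 * ((c - a : ℕ) : ℝ) ^ 6 := mul_le_mul_of_nonneg_right h10 (by positivity)
            _ = _ := by ring
        have h11 : ((2 ^ i : ℕ) : ℝ) ≤ R * ((c - a : ℕ) : ℝ) :=
          le_of_pow_le_pow_left₀ (by norm_num) (by positivity) h9
        rw [div_le_iff₀ hR]
        linarith [mul_comm R ((c - a : ℕ) : ℝ)])
    refine h5.trans ?_
    have h12 : ((2 ^ i : ℕ) : ℝ) / (((2 ^ i : ℕ) : ℝ) / R) = R := by
      field_simp
    rw [h12]
  refine (Finset.sum_le_sum h3).trans ?_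
  rw [sum_const, card_range, nsmul_eq_mul]

theorem case4 (hSM : S_SM) (hDEC : S_DEC) (hTHR : S_THR) (hCNT : S_CNT) : ∀ᶠ s : ℕ in atTop,
    ∀ A : ℕ, 67108864 * s ^ 3 ≤ A → ((A + s : ℕ) : ℝ) ≤ (s : ℝ) ^ 4 / (100 * Real.log s) →
    ∃ G ⊆ Ioc A (A + s), (∀ j ∈ G, Good s j) ∧ (s : ℝ) / (8 * Real.log s) ≤ G.card := by
  classical
  have hbig : ∀ᶠ s : ℕ in atTop, (Nat.log 2 (2048 * s) + 1 : ℕ) *
      (2 * (2048 * (s : ℝ) ^ (5 / 6 : ℝ) + 1)) ≤ s / (100 * Real.log s) := by
    have h1 := (isLittleO_log_rpow_atTop (by norm_num : (0 : ℝ) < 1 / 12)).bound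
      (show (0 : ℝ) < 1 / 3000 by norm_num)
    have h2 := tendsto_natCast_atTop_atTop (R := ℝ) |>.eventually h1
    filter_upwards [h2, log_large 24, eventually_ge_atTop 1] with s h3 h4 h5
    have hs0 : (0 : ℝ) < s := by exact_mod_cast h5
    have hs1 : (1 : ℝ) ≤ s := by exact_mod_cast h5
    set L := Real.log s with hLdef
    rw [Real.norm_eq_abs, Real.norm_eq_abs, abs_of_nonneg (by linarith : (0 : ℝ) ≤ L),
      abs_of_nonneg (Real.rpow_nonneg hs0.le _)] at h3
    -- the logarithm to base 2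
    have h6 : ((Nat.log 2 (2048 * s) + 1 : ℕ) : ℝ) ≤ 4 * L := by
      have h7 : 2 ^ Nat.log 2 (2048 * s) ≤ 2048 * s := Nat.pow_log_le_self 2 (by omega)
      have h8 : ((2 : ℝ)) ^ Nat.log 2 (2048 * s) ≤ 2048 * s := by exact_mod_cast h7
      have h9 := Real.log_le_log (by positivity) h8
      rw [Real.log_pow, Real.log_mul (by norm_num) hs0.ne'] at h9
      have h10 : Real.log 2048 = 11 * Real.log 2 := by
        rw [show (2048 : ℝ) = 2 ^ 11 by norm_num, Real.log_pow]; norm_num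
      rw [h10] at h9
      have h11 := Real.log_two_gt_d9
      have h12 := Real.log_two_lt_d9
      push_cast
      have h13 : ((Nat.log 2 (2048 * s) : ℕ) : ℝ) * (1 / 2) ≤ L + 8 := by
        have : ((Nat.log 2 (2048 * s) : ℕ) : ℝ) * (1 / 2) ≤
            ((Nat.log 2 (2048 * s) : ℕ) : ℝ) * Real.log 2 :=
          mul_le_mul_of_nonneg_left (by linarith) (Nat.cast_nonneg _)
        linarith
      linarith
    have h7 : (1 : ℝ) ≤ (s : ℝ) ^ (5 / 6 : ℝ) := Real.one_le_rpow hs1 (by norm_num)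
    have h8 : (2 * (2048 * (s : ℝ) ^ (5 / 6 : ℝ) + 1)) ≤ 4098 * (s : ℝ) ^ (5 / 6 : ℝ) := by linarith
    have h9 : (Nat.log 2 (2048 * s) + 1 : ℕ) * (2 * (2048 * (s : ℝ) ^ (5 / 6 : ℝ) + 1)) ≤
        4 * L * (4098 * (s : ℝ) ^ (5 / 6 : ℝ)) :=
      mul_le_mul h6 h8 (by positivity) (by linarith)
    refine h9.trans ?_
    rw [le_div_iff₀ (by linarith)]
    have h10 : (s : ℝ) = (s : ℝ) ^ (5 / 6 : ℝ) * ((s : ℝ) ^ (1 / 12 : ℝ)) ^ 2 := by
      rw [← Real.rpow_natCast, ← Real.rpow_mul hs0.le, ← Real.rpow_add hs0]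
      norm_num
    have h11 : 1639200 * L ^ 2 ≤ ((s : ℝ) ^ (1 / 12 : ℝ)) ^ 2 := by
      have h12 : L ^ 2 ≤ (1 / 3000 * (s : ℝ) ^ (1 / 12 : ℝ)) ^ 2 :=
        pow_le_pow_left₀ (by linarith) h3 2
      have h13 : 0 ≤ ((s : ℝ) ^ (1 / 12 : ℝ)) ^ 2 := by positivity
      nlinarith
    calc 4 * L * (4098 * (s : ℝ) ^ (5 / 6 : ℝ)) * (100 * L)
        = (s : ℝ) ^ (5 / 6 : ℝ) * (1639200 * L ^ 2) := by ring
      _ ≤ (s : ℝ) ^ (5 / 6 : ℝ) * ((s : ℝ) ^ (1 / 12 : ℝ)) ^ 2 :=
          mul_le_mul_of_nonneg_left h11 (by positivity)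
      _ = s := h10.symm
  filter_upwards [pc_bound, hbig, log_large 24, eventually_ge_atTop 2] with s hpc hbig hL hs2
    A hA1 hA2
  set L := Real.log s with hLdef
  have hs0 : (0 : ℝ) < s := by exact_mod_cast (by omega : 0 < s)
  have hs3 : s ≤ s ^ 3 := Nat.le_self_pow (by norm_num) s
  have hA0' : 0 < A := by omega
  have hA0 : (0 : ℝ) < A := by exact_mod_cast hA0'
  have hA4r : ((A + s : ℕ) : ℝ) < (s : ℝ) ^ 4 := by
    refine lt_of_le_of_lt hA2 ?_
    rw [div_lt_iff₀ (by linarith)]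
    have : 0 < (s : ℝ) ^ 4 := by positivity
    nlinarith
  have hA4 : A + s < s ^ 4 := by exact_mod_cast hA4r
  set K : ℕ := 2048 * s with hK
  set F1 := (Ioc A (A + s)).filter (fun j => K < smp s j) with hF1
  set F2 := (Ioc A (A + s)).filter (fun j => ∃ p : ℕ, s < p ∧ j = smp s j * p ^ 3) with hF2
  set F3 := (Ioc A (A + s)).filter (fun j => smp s j ≤ K ∧ ∃ p : ℕ, s < p ∧ j = smp s j * p ^ 2)
    with hF3
  set G := (Ioc A (A + s)) \ (F1 ∪ (F2 ∪ F3)) with hG
  refine ⟨G, sdiff_subset, ?_, ?_⟩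
  · intro j hj
    rw [hG, Finset.mem_sdiff, mem_union, mem_union, not_or, not_or] at hj
    obtain ⟨hjB, hj1, hj2, hj3⟩ := hj
    have hjB' := mem_Ioc.1 hjB
    have hjK : smp s j ≤ K := by
      by_contra h
      exact hj1 (mem_filter.2 ⟨hjB, by omega⟩)
    by_contra h4
    rcases hDEC s j (by omega) (by omega) (by omega) h4 with h6 | ⟨p, hp, hsp, h6⟩
    · rw [h6] at hjK
      omega
    · rcases h6 with h6 | h6
      · exact hj3 (mem_filter.2 ⟨hjB, hjK, p, hsp, h6⟩)
      · exact hj2 (mem_filter.2 ⟨hjB, p, hsp, h6⟩)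
  · have hcard : s ≤ G.card + (F1.card + (F2.card + F3.card)) := by
      have h1 : (Ioc A (A + s)).card ≤ G.card + (F1 ∪ (F2 ∪ F3)).card := by
        have := Finset.card_le_card_sdiff_add_card (t := F1 ∪ (F2 ∪ F3)) (s := Ioc A (A + s))
        rw [hG]; exact this
      have h2 := card_union_le F1 (F2 ∪ F3)
      have h3 := card_union_le F2 F3
      rw [Nat.card_Ioc] at h1
      omega
    have hcard' : (s : ℝ) ≤ G.card + (F1.card + (F2.card + F3.card)) := by exact_mod_cast hcard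
    -- F1
    have hKlog : L + 7 ≤ Real.log ((K : ℕ) : ℝ) := by
      rw [hK]
      push_cast
      rw [Real.log_mul (by norm_num) hs0.ne']
      have h10 : Real.log 2048 = 11 * Real.log 2 := by
        rw [show (2048 : ℝ) = 2 ^ 11 by norm_num, Real.log_pow]; norm_num
      have h11 := Real.log_two_gt_d9
      linarith
    have h2 := markov A s F1 (filter_subset _ _) (L + 7) (fun j hj => by
      rw [hF1, mem_filter] at hj
      refine hKlog.trans (Real.log_le_log ?_ (by exact_mod_cast hj.2.le))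
      exact_mod_cast (by omega : 0 < K))
    have h3 := h2.trans (sum_log hSM A s (by omega))
    have h4 : Real.log ((A + s : ℕ) : ℝ) ≤ 4 * L := by
      have h6 := Real.log_le_log (by exact_mod_cast (by omega : 0 < A + s)) hA4r.le
      rw [Real.log_pow] at h6
      exact_mod_cast h6
    have h7 : (pc s : ℝ) * Real.log ((A + s : ℕ) : ℝ) ≤ 6 * s := by
      have h8 : (pc s : ℝ) * Real.log ((A + s : ℕ) : ℝ) ≤ 3 / 2 * s / L * (4 * L) :=
        mul_le_mul hpc h4 (Real.log_nonneg (by exact_mod_cast (by omega : 1 ≤ A + s)))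
          (by positivity)
      refine h8.trans (le_of_eq ?_)
      field_simp
      ring
    have hF1c : (F1.card : ℝ) ≤ s - s / (2 * L) := by
      have h8 : (F1.card : ℝ) * (L + 7) ≤ s * L + 6 * s := by linarith
      have h9 : (F1.card : ℝ) ≤ s - s / (L + 7) := by
        have h10 : (s : ℝ) - s / (L + 7) = (s * L + 6 * s) / (L + 7) := by
          field_simp
          ring
        rw [h10, le_div_iff₀ (by linarith)]
        exact h8
      have h10 : (s : ℝ) / (2 * L) ≤ s / (L + 7) :=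
        div_le_div_of_nonneg_left hs0.le (by linarith) (by linarith)
      linarith
    -- F2
    have hF2c : (F2.card : ℝ) ≤ s / (100 * L) := by
      have h8 : F2.card ≤ (Icc 1 (⌊(s : ℝ) / (100 * L)⌋₊)).card := by
        refine Finset.card_le_card_of_injOn (fun j => smp s j) ?_ ?_
        · intro j hj
          obtain ⟨hjB, p, hp, hjp⟩ := mem_filter.1 hj
          rw [mem_coe, mem_Icc]
          refine ⟨smp_pos s j, ?_⟩
          show smp s j ≤ _
          apply Nat.le_floor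
          have h9 : smp s j * s ^ 3 ≤ A + s := by
            have h10 : smp s j * s ^ 3 ≤ smp s j * p ^ 3 :=
              Nat.mul_le_mul_left _ (Nat.pow_le_pow_left hp.le 3)
            have := (mem_Ioc.1 hjB).2
            omega
          have h10 : (smp s j : ℝ) * (s : ℝ) ^ 3 ≤ (s : ℝ) ^ 4 / (100 * L) := by
            refine le_trans ?_ hA2
            exact_mod_cast h9
          have h11 : (s : ℝ) ^ 4 / (100 * L) = s / (100 * L) * (s : ℝ) ^ 3 := by ring
          rw [h11] at h10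
          exact le_of_mul_le_mul_right h10 (by positivity)
        · intro i hi j hj hij
          have hij : smp s i = smp s j := hij
          obtain ⟨hiB, p, hp, hip⟩ := mem_filter.1 hi
          obtain ⟨hjB, q, hq, hjq⟩ := mem_filter.1 hj
          rw [← hij] at hjq
          have c0 := smp_pos s i
          rcases lt_trichotomy p q with h | h | h
          · exact (inj_cu hp c0 (by rw [← hip]; exact hiB) (by rw [← hjq]; exact hjB) h).elim
          · rw [hip, hjq, h]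
          · exact (inj_cu hq c0 (by rw [← hjq]; exact hjB) (by rw [← hip]; exact hiB) h).elim
      rw [Nat.card_Icc, Nat.add_sub_cancel] at h8
      have h9 : (F2.card : ℝ) ≤ (⌊(s : ℝ) / (100 * L)⌋₊ : ℝ) := by exact_mod_cast h8
      exact h9.trans (Nat.floor_le (by positivity))
    -- F3
    have hF3c : (F3.card : ℝ) ≤ s / (100 * L) := by
      have h8 : (F3.image (fun j => smp s j)).card = F3.card := by
        apply card_image_of_injOn
        intro i hi j hj hij
        have hij : smp s i = smp s j := hij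
        obtain ⟨hiB, -, p, hp, hip⟩ := mem_filter.1 hi
        obtain ⟨hjB, -, q, hq, hjq⟩ := mem_filter.1 hj
        rw [← hij] at hjq
        have c0 := smp_pos s i
        rcases lt_trichotomy p q with h | h | h
        · exact (inj_sq hp c0 (by rw [← hip]; exact hiB) (by rw [← hjq]; exact hjB) h).elim
        · rw [hip, hjq, h]
        · exact (inj_sq hq c0 (by rw [← hjq]; exact hjB) (by rw [← hip]; exact hiB) h).elim
      rw [← h8]
      have hσ : (2048 * (s : ℝ) ^ (5 / 6 : ℝ)) ^ 6 = 2048 ^ 6 * (s : ℝ) ^ 5 := by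
        rw [mul_pow]
        congr 1
        rw [← Real.rpow_natCast, ← Real.rpow_mul hs0.le, ← Real.rpow_natCast]
        norm_num
      refine (count_W hTHR hCNT A s K (2048 * (s : ℝ) ^ (5 / 6 : ℝ)) (by omega) (by omega) ?_
        (by positivity) ?_ _ ?_).trans ?_
      · rw [hK]
        calc 16 * s * (2048 * s) ^ 2 = 67108864 * s ^ 3 := by ring
          _ ≤ A := hA1
      · rw [hσ]
        have h9 : (A : ℝ) ≤ (s : ℝ) ^ 4 := by
          have : A ≤ s ^ 4 := by omega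
          exact_mod_cast this
        have h10 : ((K : ℕ) : ℝ) = 2048 * s := by rw [hK]; push_cast; ring
        rw [h10]
        calc 2048 * (s : ℝ) * A ≤ 2048 * (s : ℝ) * (s : ℝ) ^ 4 :=
              mul_le_mul_of_nonneg_left h9 (by positivity)
          _ = 2048 * (s : ℝ) ^ 5 := by ring
          _ ≤ 2048 ^ 6 * (s : ℝ) ^ 5 := mul_le_mul_of_nonneg_right (by norm_num) (by positivity)
      · intro a ha
        rw [mem_image] at ha
        obtain ⟨j, hj, rfl⟩ := ha
        obtain ⟨hjB, hjK, p, hp, hjp⟩ := mem_filter.1 hj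
        rw [mem_Ioc] at hjB
        exact ⟨smp_pos s j, hjK, p, by rw [← hjp]; exact hjB.1, by rw [← hjp]; exact hjB.2⟩
      · exact hbig
    have hGc : (s : ℝ) / (2 * L) - s / (100 * L) - s / (100 * L) ≤ G.card := by linarith
    refine le_trans ?_ hGc
    have e1 : (s : ℝ) / (8 * L) = (s / L) * (1 / 8) := by ring
    have e2 : (s : ℝ) / (2 * L) = (s / L) * (1 / 2) := by ring
    have e3 : (s : ℝ) / (100 * L) = (s / L) * (1 / 100) := by ring
    rw [e1, e2, e3]
    have e4 : 0 ≤ (s : ℝ) / L := by positivity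
    linarith

end Pool.Agent.Y859.OE
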