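import Pool.Agent.Y859.OE.Base

set_option autoImplicit false

namespace Pool.Agent.Y859.OE

open Finset Filter

theorem log_large (B : ℝ) : ∀ᶠ s : ℕ in atTop, B ≤ Real.log s :=
  tendsto_natCast_atTop_atTop (R := ℝ) |>.eventually (Real.tendsto_log_atTop.eventually_ge_atTop B)

theorem case2 (hSM : S_SM) (hDEC : S_DEC) : ∀ᶠ s : ℕ in atTop, ∀ A : ℕ, 8 * s ≤ A →
    A + s ≤ s ^ 2 → ∃ G ⊆ Ioc A (A + s), (∀ j ∈ G, Good s j) ∧
      (s : ℝ) / (8 * Real.log s) ≤ G.card := by
  classical
  filter_upwards [pc_bound, log_large 24, eventually_ge_atTop 2] with s hpc hL hs2 A hA1 hA2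
  set L := Real.log s with hLdef
  have hs0 : (0 : ℝ) < s := by exact_mod_cast (by omega : 0 < s)
  have hA0 : (0 : ℝ) < A := by exact_mod_cast (by omega : 0 < A)
  set y := Real.log A with hy
  set N1 := (Ioc A (A + s)).filter (fun j => smp s j = j) with hN1
  set G := (Ioc A (A + s)).filter (fun j => ¬ smp s j = j) with hG
  refine ⟨G, filter_subset _ _, ?_, ?_⟩
  · intro j hj
    rw [hG, mem_filter, mem_Ioc] at hj
    obtain ⟨⟨h1, h2⟩, h3⟩ := hj
    by_contra h4
    have h5 : j < s ^ 4 := by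
      have : s ^ 2 < s ^ 4 := Nat.pow_lt_pow_right (by omega) (by norm_num)
      omega
    rcases hDEC s j (by omega) (by omega) h5 h4 with h6 | ⟨p, hp, hsp, h6⟩
    · exact h3 h6
    · have h7 := smp_pos s j
      have h8 : p ^ 2 ≤ j := by
        rcases h6 with h6 | h6
        · rw [h6]; exact Nat.le_mul_of_pos_left _ h7
        · have h9 : p ^ 2 ≤ p ^ 3 := Nat.pow_le_pow_right hp.pos (by norm_num)
          have h10 : p ^ 3 ≤ smp s j * p ^ 3 := Nat.le_mul_of_pos_left _ h7
          omega
      have h9 : (s + 1) ^ 2 ≤ p ^ 2 := Nat.pow_le_pow_left hsp 2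
      have h10 : s ^ 2 < (s + 1) ^ 2 := Nat.pow_lt_pow_left (by omega) (by norm_num)
      omega
  · have h1 : N1.card + G.card = s := by
      rw [hN1, hG, card_filter_add_card_filter_not]
      simp
    have h1' : (N1.card : ℝ) + G.card = s := by exact_mod_cast h1
    have h2 := markov A s N1 (filter_subset _ _) y (fun j hj => by
      rw [hN1, mem_filter, mem_Ioc] at hj
      rw [hj.2]
      exact Real.log_le_log hA0 (by exact_mod_cast hj.1.1.le))
    have h3 := h2.trans (sum_log hSM A s (by omega))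
    -- the logarithms
    have h4 : Real.log ((A + s : ℕ) : ℝ) ≤ y + 1 / 8 := by
      have h5 : ((A + s : ℕ) : ℝ) ≤ A * (9 / 8) := by
        push_cast
        have : (8 : ℝ) * s ≤ A := by exact_mod_cast hA1
        linarith
      have h6 := Real.log_le_log (by positivity) h5
      rw [Real.log_mul hA0.ne' (by norm_num)] at h6
      have h7 := Real.log_le_sub_one_of_pos (show (0 : ℝ) < 9 / 8 by norm_num)
      linarith
    have h5 : L + 2 ≤ y := by
      have h6 : (8 : ℝ) * s ≤ A := by exact_mod_cast hA1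
      have h7 := Real.log_le_log (by positivity) h6
      rw [Real.log_mul (by norm_num) hs0.ne'] at h7
      have h8 : Real.log 8 = 3 * Real.log 2 := by
        rw [show (8 : ℝ) = 2 ^ 3 by norm_num, Real.log_pow]; norm_num
      have h9 := Real.log_two_gt_d9
      linarith
    have h6 : y ≤ 2 * L := by
      have h7 : (A : ℝ) ≤ (s : ℝ) ^ 2 := by exact_mod_cast (by omega : A ≤ s ^ 2)
      have h8 := Real.log_le_log hA0 h7
      rw [Real.log_pow] at h8
      exact_mod_cast h8
    have h7 : (pc s : ℝ) * Real.log ((A + s : ℕ) : ℝ) ≤ 3 / 2 * s / L * (y + 1 / 8) :=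
      mul_le_mul hpc h4 (Real.log_nonneg (by exact_mod_cast (by omega : 1 ≤ A + s))) (by positivity)
    have h8 : 3 / 2 * (s : ℝ) / L * (y + 1 / 8) ≤ s * (3 / 2 + (y - L + 1 / 8) / 16) := by
      have h9 : 3 / 2 * (s : ℝ) / L * (y + 1 / 8) = s * (3 / 2 + (y - L + 1 / 8) * (3 / 2 / L)) := by
        field_simp
        ring
      rw [h9]
      apply mul_le_mul_of_nonneg_left _ hs0.le
      have h10 : 3 / 2 / L ≤ 1 / 16 := by
        rw [div_le_iff₀ (by linarith)]; linarith
      nlinarith
    have h9 : (s : ℝ) / 4 ≤ G.card * y := by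
      have : (G.card : ℝ) = s - N1.card := by linarith
      rw [this]
      nlinarith
    rw [div_le_iff₀ (by positivity)]
    have h10 : (G.card : ℝ) * y ≤ G.card * (2 * L) := mul_le_mul_of_nonneg_left h6 (Nat.cast_nonneg _)
    linarith

theorem case3 (hSM : S_SM) (hDEC : S_DEC) : ∀ᶠ s : ℕ in atTop, ∀ A : ℕ, s ^ 2 < A + s →
    A < 67108864 * s ^ 3 → ∃ G ⊆ Ioc A (A + s), (∀ j ∈ G, Good s j) ∧
      (s : ℝ) / (8 * Real.log s) ≤ G.card := by
  classical
  have hpc2 : ∀ᶠ s : ℕ in atTop, (pc (50000 * s) : ℝ) ≤ s / 16 := by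
    have h1 : Tendsto (fun s : ℕ => 50000 * s) atTop atTop :=
      tendsto_id.const_mul_atTop' (by norm_num)
    filter_upwards [h1.eventually pc_bound, log_large 1200000, eventually_ge_atTop 1]
      with s h2 h3 h4
    have hs0 : (0 : ℝ) < s := by exact_mod_cast h4
    refine h2.trans ?_
    have h5 : Real.log s ≤ Real.log ((50000 * s : ℕ) : ℝ) :=
      Real.log_le_log hs0 (by exact_mod_cast (by omega : s ≤ 50000 * s))
    rw [div_le_iff₀ (by linarith)]
    push_cast
    have h6 : (1200000 : ℝ) ≤ Real.log (50000 * (s : ℝ)) := by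
      push_cast at h5
      linarith
    nlinarith
  filter_upwards [pc_bound, hpc2, log_large 24, eventually_ge_atTop 67108865] with s hpc hpc2 hL hs2
    A hA1 hA2
  set L := Real.log s with hLdef
  have hs0 : (0 : ℝ) < s := by exact_mod_cast (by omega : 0 < s)
  have hA0' : 0 < A := by
    have : s * 2 ≤ s ^ 2 := by nlinarith
    omega
  have hA0 : (0 : ℝ) < A := by exact_mod_cast hA0'
  set y := Real.log A with hy
  have hA4 : A + s < s ^ 4 := by
    have h1 : 67108865 * s ^ 3 ≤ s * s ^ 3 := Nat.mul_le_mul_right _ hs2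
    have h2 : s * s ^ 3 = s ^ 4 := by ring
    have h4 : s ≤ s ^ 3 := Nat.le_self_pow (by norm_num) s
    omega
  set N1 := (Ioc A (A + s)).filter (fun j => smp s j = j) with hN1
  set B1 := (Ioc A (A + s)).filter (fun j => ∃ p : ℕ, s < p ∧ p ^ 2 ∣ j ∧ 16 * (j / p ^ 2) ≤ s)
    with hB1
  set B2 := (Ioc A (A + s)).filter (fun j => ∃ p : ℕ, p.Prime ∧ s < p ∧ p ∣ j ∧ p ≤ 50000 * s)
    with hB2
  set G := (Ioc A (A + s)) \ (N1 ∪ (B1 ∪ B2)) with hG
  refine ⟨G, sdiff_subset, ?_, ?_⟩
  · intro j hj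
    rw [hG, Finset.mem_sdiff, mem_union, mem_union, not_or, not_or] at hj
    obtain ⟨hjB, hj1, hj2, hj3⟩ := hj
    have hjB' := mem_Ioc.1 hjB
    by_contra h4
    have h5 : j < s ^ 4 := by omega
    rcases hDEC s j (by omega) (by omega) h5 h4 with h6 | ⟨p, hp, hsp, h6⟩
    · exact hj1 (mem_filter.2 ⟨hjB, h6⟩)
    · have h7 : p ^ 2 ∣ j := by
        rcases h6 with h6 | h6
        · exact ⟨smp s j, by rw [mul_comm]; exact h6⟩
        · exact ⟨smp s j * p, by
            calc j = smp s j * p ^ 3 := h6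
              _ = _ := by ring⟩
      by_cases h8 : 16 * (j / p ^ 2) ≤ s
      · exact hj2 (mem_filter.2 ⟨hjB, p, hsp, h7, h8⟩)
      · apply hj3
        refine mem_filter.2 ⟨hjB, p, hp, hsp, (dvd_pow_self p two_ne_zero).trans h7, ?_⟩
        by_contra h9
        push Not at h8 h9
        obtain ⟨u, hu⟩ := h7
        have h10 : j / p ^ 2 = u := by
          rw [hu]; exact Nat.mul_div_cancel_left _ (pow_pos hp.pos 2)
        rw [h10] at h8
        have h11 : (50000 * s) ^ 2 ≤ p ^ 2 := Nat.pow_le_pow_left h9.le 2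
        have h12 : (50000 * s) ^ 2 * s ≤ p ^ 2 * (16 * u) := Nat.mul_le_mul h11 h8.le
        have h13 : p ^ 2 * (16 * u) = 16 * j := by rw [hu]; ring
        have h14 : (50000 * s) ^ 2 * s = 2500000000 * s ^ 3 := by ring
        have h15 : s ≤ s ^ 3 := Nat.le_self_pow (by norm_num) s
        omega
  · have hcard : s ≤ G.card + (N1.card + (B1.card + B2.card)) := by
      have h1 : (Ioc A (A + s)).card ≤ G.card + (N1 ∪ (B1 ∪ B2)).card := by
        have := Finset.card_le_card_sdiff_add_card (t := N1 ∪ (B1 ∪ B2)) (s := Ioc A (A + s))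
        rw [hG]; exact this
      have h2 := card_union_le N1 (B1 ∪ B2)
      have h3 := card_union_le B1 B2
      rw [Nat.card_Ioc] at h1
      omega
    have hcard' : (s : ℝ) ≤ G.card + (N1.card + (B1.card + B2.card)) := by exact_mod_cast hcard
    -- N1
    have h2 := markov A s N1 (filter_subset _ _) y (fun j hj => by
      rw [hN1, mem_filter, mem_Ioc] at hj
      rw [hj.2]
      exact Real.log_le_log hA0 (by exact_mod_cast hj.1.1.le))
    have h3 := h2.trans (sum_log hSM A s (by omega))
    have h4 : Real.log ((A + s : ℕ) : ℝ) ≤ 4 * L := by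
      have h5 : ((A + s : ℕ) : ℝ) ≤ (s : ℝ) ^ 4 := by exact_mod_cast hA4.le
      have h6 := Real.log_le_log (by positivity) h5
      rw [Real.log_pow] at h6
      exact_mod_cast h6
    have h5 : 2 * L - 1 ≤ y := by
      have h6 : (s : ℝ) ^ 2 ≤ 2 * A := by
        have : s ^ 2 ≤ 2 * A := by nlinarith
        exact_mod_cast this
      have h7 := Real.log_le_log (by positivity) h6
      rw [Real.log_mul (by norm_num) hA0.ne', Real.log_pow] at h7
      have h9 := Real.log_two_lt_d9
      push_cast at h7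
      linarith
    have h7 : (pc s : ℝ) * Real.log ((A + s : ℕ) : ℝ) ≤ 6 * s := by
      have h8 : (pc s : ℝ) * Real.log ((A + s : ℕ) : ℝ) ≤ 3 / 2 * s / L * (4 * L) :=
        mul_le_mul hpc h4 (Real.log_nonneg (by exact_mod_cast (by omega : 1 ≤ A + s)))
          (by positivity)
      refine h8.trans (le_of_eq ?_)
      field_simp
      ring
    have hN1c : (N1.card : ℝ) ≤ 3 / 4 * s := by
      have h8 : (N1.card : ℝ) * (2 * L - 1) ≤ s * L + 6 * s := by
        have := mul_le_mul_of_nonneg_left h5 (Nat.cast_nonneg (α := ℝ) N1.card)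
        linarith
      by_contra h9
      push Not at h9
      have h10 : 3 / 4 * (s : ℝ) * (2 * L - 1) < N1.card * (2 * L - 1) :=
        mul_lt_mul_of_pos_right h9 (by linarith)
      nlinarith
    -- B1
    have hB1c : (B1.card : ℝ) ≤ s / 16 := by
      have h8 : B1.card ≤ (Icc 1 (s / 16)).card := by
        have hch : ∀ j ∈ B1, ∃ p : ℕ, s < p ∧ p ^ 2 ∣ j ∧ 16 * (j / p ^ 2) ≤ s :=
          fun j hj => (mem_filter.1 hj).2
        choose! f hf using hch
        refine Finset.card_le_card_of_injOn (fun j => j / f j ^ 2) ?_ ?_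
        · intro j hj
          have hjm := mem_Ioc.1 (mem_filter.1 hj).1
          obtain ⟨h9, h10, h11⟩ := hf j hj
          rw [mem_coe, mem_Icc]
          refine ⟨Nat.div_pos (Nat.le_of_dvd (by omega) h10) (pow_pos (by omega) 2), ?_⟩
          rw [Nat.le_div_iff_mul_le (by norm_num)]
          show j / f j ^ 2 * 16 ≤ s
          omega
        · intro i hi j hj hij
          have hij : i / f i ^ 2 = j / f j ^ 2 := hij
          have him := (mem_filter.1 hi).1
          have hjm := (mem_filter.1 hj).1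
          obtain ⟨a1, a2, -⟩ := hf i hi
          obtain ⟨b1, b2, -⟩ := hf j hj
          have c1 : i / f i ^ 2 * f i ^ 2 = i := Nat.div_mul_cancel a2
          have c2 : j / f j ^ 2 * f j ^ 2 = j := Nat.div_mul_cancel b2
          rw [← hij] at c2
          have c0 : 1 ≤ i / f i ^ 2 :=
            Nat.div_pos (Nat.le_of_dvd (by have := mem_Ioc.1 him; omega) a2) (pow_pos (by omega) 2)
          rcases lt_trichotomy (f i) (f j) with h | h | h
          · exact (inj_sq a1 c0 (by rw [c1]; exact him) (by rw [c2]; exact hjm) h).elim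
          · rw [← c1, ← c2, h]
          · exact (inj_sq b1 c0 (by rw [c2]; exact hjm) (by rw [c1]; exact him) h).elim
      rw [Nat.card_Icc, Nat.add_sub_cancel] at h8
      have h9 : ((s / 16 : ℕ) : ℝ) ≤ s / 16 := Nat.cast_div_le
      have h10 : (B1.card : ℝ) ≤ ((s / 16 : ℕ) : ℝ) := by exact_mod_cast h8
      linarith
    -- B2
    have hB2c : (B2.card : ℝ) ≤ s / 16 := by
      have h8 : B2.card ≤ pc (50000 * s) := by
        have hch : ∀ j ∈ B2, ∃ p : ℕ, p.Prime ∧ s < p ∧ p ∣ j ∧ p ≤ 50000 * s :=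
          fun j hj => (mem_filter.1 hj).2
        choose! f hf using hch
        refine Finset.card_le_card_of_injOn f ?_ ?_
        · intro j hj
          obtain ⟨h9, h10, h11, h12⟩ := hf j hj
          rw [mem_coe, mem_filter, mem_Icc]
          exact ⟨⟨h9.one_le, h12⟩, h9⟩
        · intro i hi j hj hij
          obtain ⟨a1, a2, a3, -⟩ := hf i hi
          obtain ⟨b1, b2, b3, -⟩ := hf j hj
          rw [← hij] at b3
          exact uniq a2 (mem_filter.1 hi).1 (mem_filter.1 hj).1 a3 b3
      have h9 : (B2.card : ℝ) ≤ pc (50000 * s) := by exact_mod_cast h8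
      linarith
    have hGc : (s : ℝ) / 8 ≤ G.card := by linarith
    refine le_trans ?_ hGc
    apply div_le_div_of_nonneg_left hs0.le (by norm_num) (by linarith)

end Pool.Agent.Y859.OE
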