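import Pool.Agent.Y859.OE.Case4

set_option autoImplicit false

namespace Pool.Agent.Y859.OE

open Finset Filter

theorem small_once {A s p : ℕ} (hp : p.Prime) (h1 : A < p) (h2 : p ≤ A + s) (h3 : A + s < 2 * p) :
    Once A s p := by
  refine once_of hp (mem_Ioc.2 ⟨h1, h2⟩) dvd_rfl ?_ ?_
  · intro h
    have h4 := Nat.le_of_dvd hp.pos h
    have h5 := hp.two_le
    nlinarith
  · rintro i hi ⟨k, rfl⟩
    rw [mem_Ioc] at hi
    have h4 : k ≠ 0 := by rintro rfl; omega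
    have h5 : k < 2 := by
      by_contra h
      push Not at h
      have : p * 2 ≤ p * k := Nat.mul_le_mul_left _ h
      omega
    have h6 : k = 1 := by omega
    rw [h6, mul_one]

theorem blocks (hSM : S_SM) (hDEC : S_DEC) (hTHR : S_THR) (hCNT : S_CNT) (hSMALL : S_SMALL) :
    ∃ c : ℝ, 0 < c ∧ ∀ᶠ s : ℕ in atTop, ∀ A : ℕ,
      ((A + s : ℕ) : ℝ) ≤ (s : ℝ) ^ 4 / (100 * Real.log s) →
      ∃ T : Finset ℕ, (∀ p ∈ T, Once A s p) ∧ c * s / Real.log s ≤ (T.card : ℝ) := by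
  obtain ⟨c, hc, s₀, hS⟩ := hSMALL
  refine ⟨min c (1 / 8), by positivity, ?_⟩
  filter_upwards [case2 hSM hDEC, case3 hSM hDEC, case4 hSM hDEC hTHR hCNT,
    eventually_ge_atTop s₀, log_large 1] with s h2 h3 h4 hs hL A hA
  have hs0 : (0 : ℝ) ≤ s := Nat.cast_nonneg s
  have key : (∃ G ⊆ Ioc A (A + s), (∀ j ∈ G, Good s j) ∧
      (s : ℝ) / (8 * Real.log s) ≤ G.card) →
      ∃ T : Finset ℕ, (∀ p ∈ T, Once A s p) ∧
        min c (1 / 8) * s / Real.log s ≤ (T.card : ℝ) := by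
    rintro ⟨G, hG1, hG2, hG3⟩
    obtain ⟨T, hT1, hT2⟩ := good_T A s G hG1 hG2
    refine ⟨T, hT1, ?_⟩
    rw [hT2]
    refine le_trans ?_ hG3
    have h5 : (s : ℝ) / (8 * Real.log s) = 1 / 8 * s / Real.log s := by ring
    rw [h5]
    apply div_le_div_of_nonneg_right _ (by linarith)
    exact mul_le_mul_of_nonneg_right (min_le_right _ _) hs0
  by_cases c1 : A ≤ 8 * s
  · obtain ⟨T, hT1, hT2⟩ := hS A s hs c1
    refine ⟨T, fun p hp => ?_, ?_⟩
    · obtain ⟨e1, e2, e3, e4⟩ := hT1 p hp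
      exact small_once e1 e2 e3 e4
    · refine le_trans ?_ hT2
      apply div_le_div_of_nonneg_right _ (by linarith)
      exact mul_le_mul_of_nonneg_right (min_le_left _ _) hs0
  · by_cases c2 : A + s ≤ s ^ 2
    · exact key (h2 A (by omega) c2)
    · by_cases c3 : A < 67108864 * s ^ 3
      · exact key (h3 A (by omega) c3)
      · exact key (h4 A (by omega) hA)

/-- the number of the primes dividing the product of the integers of `[m, m + n]` exactly once -/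
def om (m n : ℕ) : ℕ :=
  ((∏ j ∈ Icc m (m + n), j).primeFactors.filter (fun p => ¬ p ^ 2 ∣ ∏ j ∈ Icc m (m + n), j)).card

theorem main (hSM : S_SM) (hDEC : S_DEC) (hTHR : S_THR) (hCNT : S_CNT) (hSMALL : S_SMALL) :
    ∃ c : ℝ, 0 < c ∧ ∃ n₀ : ℕ, ∀ n : ℕ, n₀ ≤ n → ∀ m : ℕ, 1 ≤ m →
      (m : ℝ) ≤ c * (n : ℝ) ^ 4 / Real.log n → c * n / Real.log n ≤ (om m n : ℝ) := by
  obtain ⟨c, hc, h⟩ := blocks hSM hDEC hTHR hCNT hSMALL
  obtain ⟨s₀, hs₀⟩ := eventually_atTop.1 h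
  obtain ⟨n₁, hn₁⟩ := eventually_atTop.1 (log_large 1)
  refine ⟨min (c / 2) (1 / 400), by positivity, max s₀ (max n₁ 400), fun n hn m hm hmn => ?_⟩
  have e1 : s₀ ≤ n := (le_max_left _ _).trans hn
  have e2 : n₁ ≤ n := (le_max_left _ _).trans ((le_max_right _ _).trans hn)
  have e3 : 400 ≤ n := (le_max_right _ _).trans ((le_max_right _ _).trans hn)
  have hL := hn₁ n e2
  set L := Real.log n with hLdef
  have hn0 : (0 : ℝ) < n := by exact_mod_cast (by omega : 0 < n)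
  have hn400 : (400 : ℝ) ≤ n := by exact_mod_cast e3
  have hLs : Real.log ((n + 1 : ℕ) : ℝ) ≤ 2 * L := by
    have h1 : ((n + 1 : ℕ) : ℝ) ≤ (n : ℝ) ^ 2 := by
      push_cast
      nlinarith
    have h2 := Real.log_le_log (by positivity) h1
    rw [Real.log_pow] at h2
    exact_mod_cast h2
  have hLs1 : 1 ≤ Real.log ((n + 1 : ℕ) : ℝ) :=
    hL.trans (Real.log_le_log hn0 (by push_cast; linarith))
  have hLn : L ≤ n := (Real.log_le_sub_one_of_pos hn0).trans (by linarith)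
  have hs4 : (n : ℝ) ^ 4 ≤ ((n + 1 : ℕ) : ℝ) ^ 4 :=
    pow_le_pow_left₀ hn0.le (by push_cast; linarith) 4
  have h1 : (((m - 1) + (n + 1) : ℕ) : ℝ) ≤ ((n + 1 : ℕ) : ℝ) ^ 4 /
      (100 * Real.log ((n + 1 : ℕ) : ℝ)) := by
    have h2 : (((m - 1) + (n + 1) : ℕ) : ℝ) = m + n := by
      rw [show (m - 1) + (n + 1) = m + n by omega]; push_cast; ring
    rw [h2]
    have h3 : (m : ℝ) ≤ (n : ℝ) ^ 4 / (400 * L) := by
      refine hmn.trans ?_
      have h4 : min (c / 2) (1 / 400) * (n : ℝ) ^ 4 / L ≤ 1 / 400 * (n : ℝ) ^ 4 / L := by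
        apply div_le_div_of_nonneg_right _ (by linarith)
        exact mul_le_mul_of_nonneg_right (min_le_right _ _) (by positivity)
      refine h4.trans (le_of_eq ?_)
      ring
    have h4 : (n : ℝ) ≤ (n : ℝ) ^ 4 / (400 * L) := by
      rw [le_div_iff₀ (by linarith)]
      have h5 : (n : ℝ) * (400 * L) ≤ n * (n * n) :=
        mul_le_mul_of_nonneg_left (mul_le_mul hn400 hLn (by linarith) hn0.le) hn0.le
      have h6 : (n : ℝ) * (n * n) ≤ (n : ℝ) ^ 4 := by
        have : (1 : ℝ) ≤ n := by linarith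
        have h7 : 0 ≤ (n : ℝ) * (n * n) := by positivity
        nlinarith
      linarith
    have h5 : (n : ℝ) ^ 4 / (200 * L) ≤ ((n + 1 : ℕ) : ℝ) ^ 4 /
        (100 * Real.log ((n + 1 : ℕ) : ℝ)) := by
      apply div_le_div₀ (by positivity) hs4 (by linarith) (by linarith)
    have h6 : (n : ℝ) ^ 4 / (400 * L) + (n : ℝ) ^ 4 / (400 * L) = (n : ℝ) ^ 4 / (200 * L) := by
      field_simp
      ring
    linarith
  obtain ⟨T, hT1, hT2⟩ := hs₀ (n + 1) (by omega) (m - 1) h1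
  have hIoc : Ioc (m - 1) (m - 1 + (n + 1)) = Icc m (m + n) := by
    ext j
    rw [mem_Ioc, mem_Icc]
    omega
  have hTsub : T ⊆ (∏ j ∈ Icc m (m + n), j).primeFactors.filter
      (fun p => ¬ p ^ 2 ∣ ∏ j ∈ Icc m (m + n), j) := by
    intro p hp
    obtain ⟨a1, a2, a3⟩ := hT1 p hp
    rw [hIoc] at a2 a3
    rw [mem_filter, Nat.mem_primeFactors]
    refine ⟨⟨a1, a2, ?_⟩, a3⟩
    rw [Finset.prod_ne_zero_iff]
    intro j hj
    rw [mem_Icc] at hj
    omega
  have h2 : (T.card : ℝ) ≤ om m n := by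
    unfold om
    exact_mod_cast card_le_card hTsub
  refine le_trans ?_ (hT2.trans h2)
  have h3 : min (c / 2) (1 / 400) * (n : ℝ) / L ≤ c / 2 * n / L := by
    apply div_le_div_of_nonneg_right _ (by linarith)
    exact mul_le_mul_of_nonneg_right (min_le_left _ _) hn0.le
  refine h3.trans ?_
  have h4 : c / 2 * (n : ℝ) / L = c * n / (2 * L) := by ring
  rw [h4]
  apply div_le_div₀ (by positivity) _ (by linarith) hLs
  exact mul_le_mul_of_nonneg_left (by push_cast; linarith) hc.le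

end Pool.Agent.Y859.OE
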