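import Mathlib

/-!
# Project OE (helper859): primes dividing a product of consecutive integers exactly once
-/

set_option autoImplicit false

namespace Pool.Agent.Y859.OE

open Finset

/-- the part of `j` composed of the primes `≤ s` -/
def smp (s j : ℕ) : ℕ := ∏ p ∈ (Icc 1 s).filter Nat.Prime, p ^ j.factorization p

/-- some prime `> s` divides `j` exactly once -/
def Good (s j : ℕ) : Prop := ∃ p : ℕ, p.Prime ∧ s < p ∧ p ∣ j ∧ ¬ p ^ 2 ∣ j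

/-- the smooth part of a product of consecutive integers -/
def S_SM : Prop := ∀ A s : ℕ, 1 ≤ s → ∏ j ∈ Ioc A (A + s), smp s j ≤
  s.factorial * (A + s) ^ ((Icc 1 s).filter Nat.Prime).card

/-- the integers which are not good -/
def S_DEC : Prop := ∀ s j : ℕ, 1 ≤ s → 1 ≤ j → j < s ^ 4 → ¬ Good s j →
  smp s j = j ∨ ∃ p : ℕ, p.Prime ∧ s < p ∧ (j = smp s j * p ^ 2 ∨ j = smp s j * p ^ 3)

/-- three points near the curve `a x ^ 2 = A` -/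
def S_THR : Prop := ∀ A s D a₁ a₂ a₃ x₁ x₂ x₃ : ℕ, 1 ≤ s → 1 ≤ D → D ≤ a₁ → a₁ < a₂ → a₂ < a₃ →
  a₃ ≤ 2 * D → 16 * s * D ^ 2 ≤ A → A < a₁ * x₁ ^ 2 → a₁ * x₁ ^ 2 ≤ A + s → A < a₂ * x₂ ^ 2 →
  a₂ * x₂ ^ 2 ≤ A + s → A < a₃ * x₃ ^ 2 → a₃ * x₃ ^ 2 ≤ A + s → D ^ 5 ≤ A * (a₃ - a₁) ^ 6

/-- a set all of whose triples are spread out is small -/
def S_CNT : Prop := ∀ (W : Finset ℕ) (D : ℕ) (g : ℝ), 1 ≤ D → 0 < g →
  (∀ a ∈ W, D ≤ a ∧ a ≤ 2 * D) →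
  (∀ a ∈ W, ∀ b ∈ W, ∀ c ∈ W, a < b → b < c → g ≤ ((c - a : ℕ) : ℝ)) →
  (W.card : ℝ) ≤ 2 * (D / g + 1)

/-- short products of consecutive integers near the origin -/
def S_SMALL : Prop := ∃ c : ℝ, 0 < c ∧ ∃ s₀ : ℕ, ∀ A s : ℕ, s₀ ≤ s → A ≤ 8 * s →
  ∃ T : Finset ℕ, (∀ p ∈ T, p.Prime ∧ A < p ∧ p ≤ A + s ∧ A + s < 2 * p) ∧
    c * s / Real.log s ≤ (T.card : ℝ)

/-- the prime number theorem -/
def S_PNT : Prop :=
  Filter.Tendsto (fun x : ℝ => Chebyshev.theta x / x) Filter.atTop (nhds 1)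

end Pool.Agent.Y859.OE
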